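import Pool.Agent.helper41.HFE.Spec

set_option autoImplicit false

open Polynomial Module Pool.Agent.HFN

namespace Pool.Agent.HFE

noncomputable section

theorem LRG : LRG_stmt := by
  classical
  intro J hJ
  unfold Fc at hJ
  obtain ⟨S, hS⟩ := (Module.Finite.fg_top (R := ℂ) (M := AA ⧸ (J.restrictScalars ℂ : Submodule ℂ AA)))
  -- representatives
  have hrep : ∀ q : AA ⧸ (J.restrictScalars ℂ : Submodule ℂ AA), ∃ f : AA, (J.restrictScalars ℂ : Submodule ℂ AA).mkQ f = q :=
    fun q => Submodule.mkQ_surjective _ q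
  choose g hg using hrep
  refine ⟨S.sup fun q => max (dX (g q)) (dY (g q)), ?_⟩
  intro m n hm hn
  rw [eq_top_iff]
  intro f _
  have h1 : Submodule.span ℂ (S : Set (AA ⧸ (J.restrictScalars ℂ : Submodule ℂ AA))) ≤ (V m n).map (J.restrictScalars ℂ : Submodule ℂ AA).mkQ := by
    rw [Submodule.span_le]
    intro q hq
    refine ⟨g q, ?_, hg q⟩
    have h2 : max (dX (g q)) (dY (g q)) ≤ S.sup fun q => max (dX (g q)) (dY (g q)) := Finset.le_sup (f := fun q => max (dX (g q)) (dY (g q))) hq
    exact mem_V.2 ⟨((le_max_left _ _).trans h2).trans hm, ((le_max_right _ _).trans h2).trans hn⟩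
  rw [hS] at h1
  obtain ⟨f', hf', hff⟩ := h1 (Submodule.mem_top (x := (J.restrictScalars ℂ : Submodule ℂ AA).mkQ f))
  have h3 : f - f' ∈ (J.restrictScalars ℂ : Submodule ℂ AA) := by
    rw [← Submodule.ker_mkQ (J.restrictScalars ℂ : Submodule ℂ AA), LinearMap.mem_ker, map_sub, hff, sub_self]
  have h4 : f = f' + (f - f') := by ring
  rw [h4]
  exact Submodule.add_mem_sup hf' h3

end

end Pool.Agent.HFE
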